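import Mathlib
import Pool.Agent.Helper12.CubicCount

open Polynomial

namespace Pool.Agent.Results.MP_3ef321_nt.CubicCase

/-- The polynomials `P ∈ ℤ[x]` of degree `n`, irreducible over `ℚ`, with height at most `Q` and
`0 < |D(P)| ≤ c Q^(2n-2-2v)`; the counting function `N_{n,v,c}(Q)` is the cardinality. -/
def smallDiscr (n : ℕ) (v c Q : ℝ) : Set ℤ[X] :=
  {P | P.natDegree = n ∧ Irreducible (P.map (Int.castRingHom ℚ)) ∧
    (∀ i, |(P.coeff i : ℝ)| ≤ Q) ∧ 0 < |(P.discr : ℝ)| ∧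
    |(P.discr : ℝ)| ≤ c * Q ^ (2 * (n : ℝ) - 2 - 2 * v)}

/-- The coefficient vector. -/
def vec (P : ℤ[X]) : ℤ × ℤ × ℤ × ℤ := (P.coeff 3, P.coeff 2, P.coeff 1, P.coeff 0)

theorem vec_injOn : Set.InjOn vec {P : ℤ[X] | P.natDegree = 3} := by
  intro P hP R hR h
  simp only [vec, Prod.mk.injEq] at h
  obtain ⟨h3, h2, h1, h0⟩ := h
  ext i
  by_cases hi : i ≤ 3
  · interval_cases i <;> assumption
  · push Not at hi
    have hP' : P.natDegree = 3 := hP
    have hR' : R.natDegree = 3 := hR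
    rw [Polynomial.coeff_eq_zero_of_natDegree_lt (by omega),
      Polynomial.coeff_eq_zero_of_natDegree_lt (by omega)]

theorem discr_eq (P : ℤ[X]) (hP : P.natDegree = 3) :
    (P.discr : ℝ) = Helper12.Cubic.dR (vec P) := by
  have hdeg : P.degree = 3 := by
    rw [Polynomial.degree_eq_natDegree (by intro h; rw [h] at hP; simp at hP), hP]; rfl
  rw [Polynomial.discr_of_degree_eq_three hdeg]
  unfold Helper12.Cubic.dR Helper12.Cubic.disc4 vec
  push_cast
  ring

theorem nonvanish (P : ℤ[X]) (hP : P.natDegree = 3)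
    (hirr : Irreducible (P.map (Int.castRingHom ℚ))) (x y : ℤ)
    (h : Helper12.Cubic.ev (P.coeff 3) (P.coeff 2) (P.coeff 1) (P.coeff 0) x y = 0) :
    x = 0 ∧ y = 0 := by
  have hP3 : P.coeff 3 ≠ 0 := by
    have : P.leadingCoeff ≠ 0 := by
      rw [Polynomial.leadingCoeff_ne_zero]; intro h; rw [h] at hP; simp at hP
    rwa [Polynomial.leadingCoeff, hP] at this
  by_cases hy : y = 0
  · refine ⟨?_, hy⟩
    rw [hy] at h
    unfold Helper12.Cubic.ev at h
    have h1 : P.coeff 3 * x ^ 3 = 0 := by linarith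
    rcases mul_eq_zero.1 h1 with h2 | h2
    · exact absurd h2 hP3
    · exact pow_eq_zero_iff (by norm_num) |>.1 h2
  · exfalso
    have hyQ : (y : ℚ) ≠ 0 := by exact_mod_cast hy
    have hdegmap : (P.map (Int.castRingHom ℚ)).natDegree = 3 := by
      rw [Polynomial.natDegree_map_eq_of_injective (RingHom.injective_int _), hP]
    have hroot : (P.map (Int.castRingHom ℚ)).IsRoot ((x : ℚ) / y) := by
      rw [Polynomial.IsRoot.def, Polynomial.eval_eq_sum_range, hdegmap]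
      simp only [Finset.sum_range_succ, Finset.sum_range_zero, Polynomial.coeff_map]
      unfold Helper12.Cubic.ev at h
      have hQ : (P.coeff 3 : ℚ) * x ^ 3 + P.coeff 2 * x ^ 2 * y + P.coeff 1 * x * y ^ 2 +
          P.coeff 0 * y ^ 3 = 0 := by exact_mod_cast h
      simp only [eq_intCast]
      field_simp
      linear_combination hQ
    exact hirr.not_isRoot_of_natDegree_ne_one (by rw [hdegmap]; norm_num) hroot

theorem result : ∃ C : ℝ, ∀ v c Q : ℝ, 0 < c → 1 ≤ Q →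
    (smallDiscr 3 v c Q).Finite ∧
    ((smallDiscr 3 v c Q).ncard : ℝ) ≤
      C * c ^ (5 / 6 : ℝ) * Q ^ ((3 : ℝ) + 1 - (3 + 2) / 3 * v) := by
  classical
  refine ⟨30000000000000, ?_⟩
  intro v c Q hc hQ
  have hQ0 : 0 < Q := by linarith
  set X : ℝ := c * Q ^ (2 * ((3 : ℕ) : ℝ) - 2 - 2 * v) with hX
  have hX0 : 0 < X := by positivity
  -- every finite subset is small
  have key : ∀ S : Finset ℤ[X], (S : Set ℤ[X]) ⊆ smallDiscr 3 v c Q →
      (S.card : ℝ) ≤ 30000000000000 * X ^ (5 / 6 : ℝ) * Q ^ (2 / 3 : ℝ) := by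
    intro S hS
    have hinj : Set.InjOn vec (S : Set ℤ[X]) :=
      vec_injOn.mono (fun P hP => (hS hP).1)
    rw [← Finset.card_image_of_injOn hinj]
    obtain ⟨n, hn⟩ := pow_unbounded_of_one_lt X (one_lt_two)
    refine Helper12.Cubic.main_count Q hQ0 n X hX0 hn _ ?_ ?_ ?_ ?_ ?_ ?_ ?_
    · intro f hf x y hxy
      obtain ⟨P, hP, rfl⟩ := Finset.mem_image.1 hf
      have h := hS (Finset.mem_coe.2 hP)
      exact nonvanish P h.1 h.2.1 x y hxy
    · intro f hf
      obtain ⟨P, hP, rfl⟩ := Finset.mem_image.1 hf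
      exact (hS (Finset.mem_coe.2 hP)).2.2.1 3
    · intro f hf
      obtain ⟨P, hP, rfl⟩ := Finset.mem_image.1 hf
      exact (hS (Finset.mem_coe.2 hP)).2.2.1 2
    · intro f hf
      obtain ⟨P, hP, rfl⟩ := Finset.mem_image.1 hf
      exact (hS (Finset.mem_coe.2 hP)).2.2.1 1
    · intro f hf
      obtain ⟨P, hP, rfl⟩ := Finset.mem_image.1 hf
      exact (hS (Finset.mem_coe.2 hP)).2.2.1 0
    · intro f hf
      obtain ⟨P, hP, rfl⟩ := Finset.mem_image.1 hf
      have h := hS (Finset.mem_coe.2 hP)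
      rw [← discr_eq P h.1]
      have h1 : P.discr ≠ 0 := by
        intro h0
        have := h.2.2.2.1
        rw [h0] at this
        simp at this
      rw [← Int.cast_abs]
      exact_mod_cast Int.one_le_abs h1
    · intro f hf
      obtain ⟨P, hP, rfl⟩ := Finset.mem_image.1 hf
      have h := hS (Finset.mem_coe.2 hP)
      rw [← discr_eq P h.1]
      exact h.2.2.2.2
  have hfin : (smallDiscr 3 v c Q).Finite := by
    by_contra hinf
    obtain ⟨n, hn⟩ := exists_nat_gt (30000000000000 * X ^ (5 / 6 : ℝ) * Q ^ (2 / 3 : ℝ))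
    obtain ⟨S, hS, hSn⟩ := Set.Infinite.exists_subset_card_eq hinf n
    have := key S hS
    rw [hSn] at this
    linarith
  refine ⟨hfin, ?_⟩
  have h1 := key hfin.toFinset (by simp)
  rw [Set.ncard_eq_toFinset_card _ hfin]
  refine h1.trans (le_of_eq ?_)
  have h2 : X ^ (5 / 6 : ℝ) = c ^ (5 / 6 : ℝ) * Q ^ ((2 * ((3 : ℕ) : ℝ) - 2 - 2 * v) * (5 / 6)) := by
    rw [hX, Real.mul_rpow hc.le (by positivity), ← Real.rpow_mul hQ0.le]
  rw [h2]
  have h3 : Q ^ ((3 : ℝ) + 1 - (3 + 2) / 3 * v) =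
      Q ^ ((2 * ((3 : ℕ) : ℝ) - 2 - 2 * v) * (5 / 6)) * Q ^ (2 / 3 : ℝ) := by
    rw [← Real.rpow_add hQ0]
    congr 1
    push_cast
    ring
  rw [h3]
  ring

end Pool.Agent.Results.MP_3ef321_nt.CubicCase
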