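import Mathlib
import Pool.Agent.Helper45.HR.Final

open Polynomial

namespace Pool.Agent.Results.MP_3ef321_nt.HalfRange

/-- The polynomials `P ∈ ℤ[x]` of degree `n`, irreducible over `ℚ`, with height at most `Q` and
`0 < |D(P)| ≤ c Q^(2n-2-2v)`; the counting function `N_{n,v,c}(Q)` is the cardinality. -/
def smallDiscr (n : ℕ) (v c Q : ℝ) : Set ℤ[X] :=
  {P | P.natDegree = n ∧ Irreducible (P.map (Int.castRingHom ℚ)) ∧
    (∀ i, |(P.coeff i : ℝ)| ≤ Q) ∧ 0 < |(P.discr : ℝ)| ∧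
    |(P.discr : ℝ)| ≤ c * Q ^ (2 * (n : ℝ) - 2 - 2 * v)}

/-- For every degree `n ≥ 2` and all `u < n/2`, `u ≤ v`:
`N_{n,v,c}(Q) ≤ K Q^(n+1-(n+2)u/n)` for all `Q ≥ 1`. -/
theorem result (n : ℕ) (hn : 2 ≤ n) (v c u : ℝ) (hc : 0 < c) (huv : u ≤ v) (hu : u < n / 2) :
    ∃ K : ℝ, ∀ Q : ℝ, 1 ≤ Q → (smallDiscr n v c Q).Finite ∧
      ((smallDiscr n v c Q).ncard : ℝ) ≤ K * Q ^ ((n : ℝ) + 1 - ((n : ℝ) + 2) / n * u) := by
  obtain ⟨K, -, hK⟩ := Helper45.HR.half_all hn c u hc hu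
  refine ⟨K, ?_⟩
  intro Q hQ
  have key : ∀ S : Finset ℤ[X], (S : Set ℤ[X]) ⊆ smallDiscr n v c Q →
      (S.card : ℝ) ≤ K * Q ^ ((n : ℝ) + 1 - ((n : ℝ) + 2) / n * u) := by
    intro S hS
    apply hK Q hQ S
    intro P hP
    obtain ⟨h1, h2, h3, -, h4⟩ := hS (Finset.mem_coe.2 hP)
    refine ⟨h1, h2, h3, h4.trans ?_⟩
    apply mul_le_mul_of_nonneg_left _ hc.le
    apply Real.rpow_le_rpow_of_exponent_le hQ
    linarith
  have hfin : (smallDiscr n v c Q).Finite := by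
    by_contra hinf
    obtain ⟨m, hm⟩ := exists_nat_gt (K * Q ^ ((n : ℝ) + 1 - ((n : ℝ) + 2) / n * u))
    obtain ⟨S, hS, hSn⟩ := Set.Infinite.exists_subset_card_eq hinf m
    have := key S hS
    rw [hSn] at this
    linarith
  refine ⟨hfin, ?_⟩
  rw [Set.ncard_eq_toFinset_card _ hfin]
  exact key hfin.toFinset (by simp)

end Pool.Agent.Results.MP_3ef321_nt.HalfRange
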